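import Pool.Agent.W170.MV.Pieces

set_option autoImplicit false

/-!
# Sums over a block of integers at the points `k H`, `k ≤ H`
-/

namespace Pool.Agent.W170.MV

open Finset

/-- number of cells of the circle of length `2 π n` -/
noncomputable def QQ (H : ℝ) (n : ℕ) : ℕ := ⌈2 * (n : ℝ) / H⌉₊

/-- the cell of the point `k H` modulo `2 π n` -/
noncomputable def cell (H : ℝ) (n k : ℕ) : ℤ :=
  ⌊(QQ H n : ℝ) * ((k : ℝ) * H) / (2 * Real.pi * n)⌋ % (QQ H n : ℤ)

/-- the largest number of points `k H`, `k ∈ I`, in one cell modulo `2 π n` -/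
noncomputable def mult (H : ℝ) (I : Finset ℕ) (n : ℕ) : ℕ :=
  (range (QQ H n)).sup (fun a => (I.filter (fun k => cell H n k = (a : ℤ))).card)

theorem reindex (B : Finset ℕ) (n₁ Q : ℕ) (hB : ∀ n ∈ B, n₁ ≤ n ∧ n ≤ n₁ + Q) {M : Type*}
    [AddCommMonoid M] (f : ℕ → M) :
    ∑ j ∈ range (Q + 1), (if n₁ + j ∈ B then f (n₁ + j) else 0) = ∑ n ∈ B, f n := by
  rw [← Finset.sum_filter]
  apply Finset.sum_nbij' (fun j => n₁ + j) (fun n => n - n₁)
  · intro j hj
    exact (mem_filter.1 hj).2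
  · intro n hn
    have := hB n hn
    rw [mem_filter, mem_range]
    refine ⟨by omega, ?_⟩
    rw [Nat.add_sub_cancel' this.1]
    exact hn
  · intro j _
    simp
  · intro n hn
    have := hB n hn
    simp [Nat.add_sub_cancel' this.1]
  · intro j _
    rfl

theorem block {H : ℝ} (hH : 1 ≤ H) (B : Finset ℕ) (n₀ : ℕ) (hn₀ : n₀ ∈ B) (hpos : ∀ n ∈ B, 0 < n)
    (hB : ∀ n ∈ B, ∀ n' ∈ B, |Real.log n - Real.log n'| ≤ 1 / H) (b : ℕ → ℂ) (I : Finset ℕ)
    (hI : ∀ k ∈ I, (k : ℝ) * H ≤ H ^ 2) :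
    ∑ k ∈ I, ‖∑ n ∈ B, b n * Complex.exp (-(Complex.I * ((k : ℝ) * H * Real.log n : ℝ)))‖ ^ 2 ≤
      Real.exp 1 ^ 2 * (mult H I n₀ * (QQ H n₀ * ((2 + (2 * Real.pi) ^ 2) *
        ∑ n ∈ B, ‖b n‖ ^ 2))) := by
  have hH0 : 0 < H := by linarith
  have hpi := Real.pi_pos
  have hn₀0 : (0 : ℝ) < n₀ := by exact_mod_cast hpos n₀ hn₀
  set Q : ℕ := QQ H n₀ with hQdef
  have hQ1 : 2 * (n₀ : ℝ) / H ≤ Q := Nat.le_ceil _
  have hQ0 : 0 < Q := by
    rw [hQdef, QQ, Nat.ceil_pos]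
    positivity
  have hQr : (0 : ℝ) < Q := by exact_mod_cast hQ0
  obtain ⟨n₁, hn₁B, hn₁⟩ : ∃ n₁ ∈ B, ∀ n ∈ B, n₁ ≤ n :=
    ⟨B.min' ⟨n₀, hn₀⟩, Finset.min'_mem _ _, fun n hn => Finset.min'_le _ _ hn⟩
  have hinv : 1 / H ≤ 1 := by rw [div_le_one hH0]; exact hH
  have hinv0 : 0 < 1 / H := by positivity
  have hrange : ∀ n ∈ B, n₁ ≤ n ∧ n ≤ n₁ + Q := by
    intro n hn
    refine ⟨hn₁ n hn, ?_⟩
    have hn0 : (0 : ℝ) < n := by exact_mod_cast hpos n hn
    have hn10 : (0 : ℝ) < n₁ := by exact_mod_cast hpos n₁ hn₁B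
    have h1 : Real.log n - Real.log n₁ ≤ 1 / H := (abs_le.1 (hB n hn n₁ hn₁B)).2
    have h2 : (n : ℝ) = n₁ * Real.exp (Real.log n - Real.log n₁) := by
      rw [Real.exp_sub, Real.exp_log hn0, Real.exp_log hn10]
      field_simp
    have h3 : Real.exp (Real.log n - Real.log n₁) ≤ 1 + 2 * (1 / H) := by
      refine (Real.exp_le_exp.2 h1).trans ?_
      have := Real.abs_exp_sub_one_le (x := 1 / H) (by rw [abs_of_pos hinv0]; exact hinv)
      rw [abs_of_pos hinv0] at this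
      have := (abs_le.1 this).2
      linarith
    have h4 : (n : ℝ) ≤ n₁ + Q := by
      have h5 : (n₁ : ℝ) ≤ n₀ := by exact_mod_cast hn₁ n₀ hn₀
      calc (n : ℝ) = n₁ * Real.exp (Real.log n - Real.log n₁) := h2
        _ ≤ n₁ * (1 + 2 * (1 / H)) := mul_le_mul_of_nonneg_left h3 hn10.le
        _ = n₁ + 2 * n₁ / H := by ring
        _ ≤ n₁ + 2 * n₀ / H := by
            have : 2 * (n₁ : ℝ) / H ≤ 2 * n₀ / H := div_le_div_of_nonneg_right (by linarith) hH0.le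
            linarith
        _ ≤ n₁ + Q := by linarith
    exact_mod_cast h4
  -- the nonlinear part of the phase
  set y : ℕ → ℝ := fun n => Real.log n - Real.log n₀ with hy
  set ρ : ℕ → ℝ := fun n => Real.exp (y n) - 1 - y n with hρ
  have hρle : ∀ n ∈ B, |ρ n| ≤ 1 / H ^ 2 := by
    intro n hn
    have h1 : |y n| ≤ 1 / H := hB n hn n₀ hn₀
    have h2 := Real.abs_exp_sub_one_sub_id_le (x := y n) (h1.trans hinv)
    refine h2.trans ?_
    rw [← sq_abs]
    calc |y n| ^ 2 ≤ (1 / H) ^ 2 := pow_le_pow_left₀ (abs_nonneg _) h1 2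
      _ = 1 / H ^ 2 := by ring
  set v : ℕ → ℝ := fun k => (Q : ℝ) * ((k : ℝ) * H) / (2 * Real.pi * n₀) with hv
  set K : ℕ → ℕ → ℂ := fun k n =>
    Complex.exp ((-(((n - n₁ : ℕ) : ℂ) / ((Q / (2 * Real.pi) : ℝ) : ℂ)) * Complex.I) * v k) with hK
  set M : ℝ := mult H I n₀ * (Q * ((2 + (2 * Real.pi) ^ 2) * ∑ n ∈ B, ‖b n‖ ^ 2)) with hM
  have hbound : ∀ b' : ℕ → ℂ, (∀ n ∈ B, ‖b' n‖ ≤ ‖b n‖) →
      ∑ k ∈ I, ‖∑ n ∈ B, K k n * b' n‖ ^ 2 ≤ M := by
    intro b' hb'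
    set b'' : ℕ → ℂ := fun j => if n₁ + j ∈ B then b' (n₁ + j) else 0 with hb''
    have e1 : ∀ k, ∑ n ∈ B, K k n * b' n = FF (Q / (2 * Real.pi)) (range (Q + 1)) b'' (v k) := by
      intro k
      rw [← reindex B n₁ Q hrange (fun n => K k n * b' n)]
      unfold FF
      apply Finset.sum_congr rfl
      intro j _
      rw [hb'']
      dsimp only
      split_ifs with h
      · rw [hK]
        dsimp only
        rw [Nat.add_sub_cancel_left]
        push_cast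
        ring
      · rw [zero_mul]
    have e2 : ∑ j ∈ range (Q + 1), ‖b'' j‖ ^ 2 ≤ ∑ n ∈ B, ‖b n‖ ^ 2 := by
      have h1 : ∑ j ∈ range (Q + 1), ‖b'' j‖ ^ 2 = ∑ n ∈ B, ‖b' n‖ ^ 2 := by
        rw [← reindex B n₁ Q hrange (fun n => ‖b' n‖ ^ 2)]
        apply Finset.sum_congr rfl
        intro j _
        rw [hb'']
        dsimp only
        split_ifs with h
        · rfl
        · simp
      rw [h1]
      apply Finset.sum_le_sum
      intro n hn
      exact pow_le_pow_left₀ (norm_nonneg _) (hb' n hn) 2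
    simp only [e1]
    refine (ls_cells Q hQ0 b'' I v (mult H I n₀) ?_).trans ?_
    · intro a ha
      exact Finset.le_sup (f := fun a : ℕ => (I.filter (fun k => cell H n₀ k = (a : ℤ))).card) ha
    · rw [hM]
      apply mul_le_mul_of_nonneg_left _ (Nat.cast_nonneg _)
      apply mul_le_mul_of_nonneg_left _ (Nat.cast_nonneg _)
      exact mul_le_mul_of_nonneg_left e2 (by positivity)
  have hsep := sep I B K b (fun k => (k : ℝ) * H) ρ (H ^ 2) (1 / H ^ 2) M (by positivity)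
    (by positivity) (by
      intro k hk
      rw [abs_of_nonneg (by positivity)]
      exact hI k hk) hρle hbound
  have hUX : H ^ 2 * (1 / H ^ 2) = 1 := by field_simp
  rw [hUX] at hsep
  refine le_trans (le_of_eq ?_) hsep
  apply Finset.sum_congr rfl
  intro k _
  -- the phase
  have hterm : ∀ n ∈ B, b n * Complex.exp (-(Complex.I * ((k : ℝ) * H * Real.log n : ℝ))) =
      Complex.exp (((-((k : ℝ) * H * (Real.log n₀ - 1 + n₁ / n₀)) : ℝ) : ℂ) * Complex.I) *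
        (K k n * (Complex.exp (Complex.I * (((k : ℝ) * H) * ρ n : ℝ)) * b n)) := by
    intro n hn
    have hn0 : (0 : ℝ) < n := by exact_mod_cast hpos n hn
    have hexp : Real.exp (y n) = n / n₀ := by
      rw [hy]
      dsimp only
      rw [Real.exp_sub, Real.exp_log hn0, Real.exp_log hn₀0]
    have hcast : ((n - n₁ : ℕ) : ℝ) = (n : ℝ) - n₁ := by
      rw [Nat.cast_sub (hn₁ n hn)]
    have hreal : (k : ℝ) * H * Real.log n = (k : ℝ) * H * (Real.log n₀ - 1 + n₁ / n₀) +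
        (((n - n₁ : ℕ) : ℝ) / (Q / (2 * Real.pi))) * v k - (k : ℝ) * H * ρ n := by
      rw [hρ]
      dsimp only
      rw [hexp, hcast, hv, hy]
      field_simp
      ring
    rw [hK]
    dsimp only
    rw [← mul_assoc, ← mul_assoc, ← Complex.exp_add, ← Complex.exp_add, mul_comm]
    congr 2
    rw [hreal]
    push_cast
    ring
  rw [Finset.sum_congr rfl hterm, ← Finset.mul_sum, norm_mul, Complex.norm_exp_ofReal_mul_I, one_mul]

end Pool.Agent.W170.MV
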