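import Pool.Agent.W170.MV.Block

set_option autoImplicit false

/-!
# Counting coincidences of the points `k H` modulo `2 π n`
-/

namespace Pool.Agent.W170.MV

open Finset

theorem card_near (s : Finset ℕ) (x r : ℝ) (hr : 0 ≤ r) (h : ∀ n ∈ s, |(n : ℝ) - x| ≤ r) :
    (s.card : ℝ) ≤ 2 * r + 1 := by
  rcases s.eq_empty_or_nonempty with rfl | hne
  · simp only [card_empty, Nat.cast_zero]
    linarith
  · set a := s.min' hne with ha
    set b := s.max' hne with hb
    have hab : a ≤ b := Finset.min'_le_max' s hne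
    have h1 := abs_le.1 (h a (Finset.min'_mem _ _))
    have h2 := abs_le.1 (h b (Finset.max'_mem _ _))
    have h3 : s ⊆ Icc a b := fun n hn => mem_Icc.2 ⟨Finset.min'_le _ _ hn, Finset.le_max' _ _ hn⟩
    have h4 : s.card ≤ b + 1 - a := by
      have := Finset.card_le_card h3
      rwa [Nat.card_Icc] at this
    have h5 : (s.card : ℝ) ≤ (b : ℝ) + 1 - a := by
      have : ((b + 1 - a : ℕ) : ℝ) = (b : ℝ) + 1 - a := by
        rw [Nat.cast_sub (by omega)]
        push_cast
        ring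
      rw [← this]
      exact_mod_cast h4
    linarith

/-- the pairs of `I` which coincide modulo `2 π n` in a nontrivial way -/
noncomputable def pr (H : ℝ) (I : Finset ℕ) (n : ℕ) : Finset (ℕ × ℕ) := by
  classical
  exact (I ×ˢ I).filter (fun p => ∃ l : ℕ, 1 ≤ l ∧
    |((p.1 : ℝ) - p.2) * H - 2 * Real.pi * n * l| < Real.pi * H)

theorem mult_le_card (H : ℝ) (I : Finset ℕ) (n : ℕ) : mult H I n ≤ I.card := by
  apply Finset.sup_le
  intro a _
  exact Finset.card_filter_le _ _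

theorem coincide {H : ℝ} (hH : 1 ≤ H) {n : ℕ} (hn : 0 < n) {k k' : ℕ}
    (h : cell H n k = cell H n k') :
    ∃ z : ℤ, |((k : ℝ) - k') * H - 2 * Real.pi * n * z| < Real.pi * H := by
  have hH0 : 0 < H := by linarith
  have hpi := Real.pi_pos
  have hnr : (0 : ℝ) < n := by exact_mod_cast hn
  have hQ1 : 2 * (n : ℝ) / H ≤ QQ H n := Nat.le_ceil _
  have hQ0 : (0 : ℝ) < QQ H n := lt_of_lt_of_le (by positivity) hQ1
  unfold cell at h
  set Q : ℕ := QQ H n with hQ
  set v : ℝ := (Q : ℝ) * ((k : ℝ) * H) / (2 * Real.pi * n) with hv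
  set v' : ℝ := (Q : ℝ) * ((k' : ℝ) * H) / (2 * Real.pi * n) with hv'
  obtain ⟨z, hz⟩ := Int.ModEq.dvd (show ⌊v'⌋ ≡ ⌊v⌋ [ZMOD (Q : ℤ)] from h.symm)
  refine ⟨z, ?_⟩
  have hzr : (⌊v⌋ : ℝ) - ⌊v'⌋ = Q * z := by exact_mod_cast hz
  have h1 := Int.floor_le v
  have h2 := Int.lt_floor_add_one v
  have h3 := Int.floor_le v'
  have h4 := Int.lt_floor_add_one v'
  have h5 : |v - v' - Q * z| < 1 := by
    rw [abs_lt]
    constructor <;> linarith
  have h6 : ((k : ℝ) - k') * H - 2 * Real.pi * n * z =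
      (2 * Real.pi * n / Q) * (v - v' - Q * z) := by
    rw [hv, hv']
    field_simp
  rw [h6, abs_mul, abs_of_pos (by positivity)]
  have h7 : 2 * Real.pi * n / Q ≤ Real.pi * H := by
    rw [div_le_iff₀ hQ0]
    rw [div_le_iff₀ hH0] at hQ1
    nlinarith
  calc 2 * Real.pi * n / Q * |v - v' - Q * z| < 2 * Real.pi * n / Q * 1 :=
        mul_lt_mul_of_pos_left h5 (by positivity)
    _ ≤ Real.pi * H := by linarith

theorem mult_sq_le {H : ℝ} (hH : 1 ≤ H) (I : Finset ℕ) {n : ℕ} (hn : 0 < n) :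
    (mult H I n) ^ 2 ≤ 7 * mult H I n + 2 * (pr H I n).card := by
  classical
  have hH0 : 0 < H := by linarith
  have hnr : (0 : ℝ) < n := by exact_mod_cast hn
  have hQ0 : 0 < QQ H n := by
    rw [QQ, Nat.ceil_pos]
    positivity
  obtain ⟨a, _, ha⟩ := Finset.exists_mem_eq_sup (range (QQ H n)) ⟨0, mem_range.2 hQ0⟩
    (fun a => (I.filter (fun k => cell H n k = (a : ℤ))).card)
  have hm : mult H I n = (I.filter (fun k => cell H n k = (a : ℤ))).card := ha
  set A := I.filter (fun k => cell H n k = (a : ℤ)) with hA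
  rw [hm, sq]
  set near : Finset (ℕ × ℕ) := (A ×ˢ A).filter (fun p => p.1 ≤ p.2 + 3 ∧ p.2 ≤ p.1 + 3) with hnear
  have hsub : A ×ˢ A ⊆ near ∪ (pr H I n ∪ (pr H I n).image Prod.swap) := by
    rintro ⟨k, k'⟩ hkk
    obtain ⟨hk, hk'⟩ := mem_product.1 hkk
    obtain ⟨hkI, hkc⟩ := mem_filter.1 hk
    obtain ⟨hkI', hkc'⟩ := mem_filter.1 hk'
    obtain ⟨z, hz⟩ := coincide hH hn (hkc.trans hkc'.symm)
    rcases lt_trichotomy z 0 with hz0 | hz0 | hz0
    · apply mem_union_right
      apply mem_union_right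
      rw [mem_image]
      refine ⟨(k', k), ?_, rfl⟩
      unfold pr
      rw [mem_filter]
      refine ⟨mem_product.2 ⟨hkI', hkI⟩, (-z).toNat, ?_, ?_⟩
      · omega
      · have hzz : (((-z).toNat : ℕ) : ℝ) = -(z : ℝ) := by
          have h1 : (((-z).toNat : ℕ) : ℤ) = -z := Int.toNat_of_nonneg (by omega)
          have h2 : ((((-z).toNat : ℕ) : ℤ) : ℝ) = ((-z : ℤ) : ℝ) := by rw [h1]
          push_cast at h2
          exact h2
        dsimp only
        rw [hzz]
        rw [show ((k' : ℝ) - k) * H - 2 * Real.pi * n * -(z : ℝ) =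
          -(((k : ℝ) - k') * H - 2 * Real.pi * n * z) by ring, abs_neg]
        exact hz
    · apply mem_union_left
      rw [hnear, mem_filter]
      refine ⟨hkk, ?_⟩
      subst hz0
      simp only [Int.cast_zero, mul_zero, sub_zero] at hz
      rw [abs_mul, abs_of_pos hH0] at hz
      have h1 : |(k : ℝ) - k'| < Real.pi := lt_of_mul_lt_mul_right hz hH0.le
      have h2 : |(k : ℝ) - k'| < 4 := lt_of_lt_of_le h1 Real.pi_le_four
      rw [abs_lt] at h2
      have h3 : (k : ℝ) < k' + 4 := by linarith [h2.2]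
      have h4 : (k' : ℝ) < k + 4 := by linarith [h2.1]
      have h5 : k < k' + 4 := by exact_mod_cast h3
      have h6 : k' < k + 4 := by exact_mod_cast h4
      dsimp only
      omega
    · apply mem_union_right
      apply mem_union_left
      unfold pr
      rw [mem_filter]
      refine ⟨mem_product.2 ⟨hkI, hkI'⟩, z.toNat, ?_, ?_⟩
      · omega
      · have hzz : ((z.toNat : ℕ) : ℝ) = (z : ℝ) := by
          have h1 : ((z.toNat : ℕ) : ℤ) = z := Int.toNat_of_nonneg (by omega)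
          have h2 : (((z.toNat : ℕ) : ℤ) : ℝ) = ((z : ℤ) : ℝ) := by rw [h1]
          push_cast at h2
          exact h2
        dsimp only
        rw [hzz]
        exact hz
  have hnc : near.card ≤ 7 * A.card := by
    have h1 : near.card = ∑ k ∈ A, (near.filter (fun p => p.1 = k)).card :=
      Finset.card_eq_sum_card_fiberwise (fun p hp => by
        rw [hnear] at hp
        exact (mem_product.1 (mem_filter.1 hp).1).1)
    rw [h1]
    have h2 : ∀ k ∈ A, (near.filter (fun p => p.1 = k)).card ≤ 7 := by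
      intro k _
      have h3 : near.filter (fun p => p.1 = k) ⊆ (Icc (k - 3) (k + 3)).image (fun b => (k, b)) := by
        rintro ⟨x, y⟩ hp
        obtain ⟨hp1, hp2⟩ := mem_filter.1 hp
        rw [hnear] at hp1
        obtain ⟨_, hp3, hp4⟩ := mem_filter.1 hp1
        dsimp only at hp2 hp3 hp4
        subst hp2
        rw [mem_image]
        refine ⟨y, ?_, rfl⟩
        rw [mem_Icc]
        omega
      refine (Finset.card_le_card h3).trans (Finset.card_image_le.trans ?_)
      rw [Nat.card_Icc]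
      omega
    refine (Finset.sum_le_sum h2).trans (le_of_eq ?_)
    rw [Finset.sum_const, smul_eq_mul, mul_comm]
  have h8 := Finset.card_le_card hsub
  rw [card_product] at h8
  have h9 := Finset.card_union_le near (pr H I n ∪ (pr H I n).image Prod.swap)
  have h10 := Finset.card_union_le (pr H I n) ((pr H I n).image Prod.swap)
  have h11 : ((pr H I n).image Prod.swap).card ≤ (pr H I n).card := Finset.card_image_le
  omega

theorem mult_le_sqrt {H : ℝ} (hH : 1 ≤ H) (I : Finset ℕ) {n : ℕ} (hn : 0 < n) :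
    (mult H I n : ℝ) ≤ 14 + 2 * Real.sqrt ((pr H I n).card) := by
  have h := mult_sq_le hH I hn
  have hr : ((mult H I n : ℕ) : ℝ) ^ 2 ≤ 7 * mult H I n + 2 * (pr H I n).card := by exact_mod_cast h
  set m : ℝ := ((mult H I n : ℕ) : ℝ) with hm
  set P : ℝ := (((pr H I n).card : ℕ) : ℝ) with hP
  have hP0 : 0 ≤ P := Nat.cast_nonneg _
  have hs := Real.sqrt_nonneg P
  have hsq := Real.sq_sqrt hP0
  by_contra hcon
  rw [not_le] at hcon
  nlinarith

open Classical in
/-- for a given pair there are few `n` -/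
theorem card_n_le {H : ℝ} (hH : 1 ≤ H) {N : ℕ} (hHN : H ≤ N) {k k' : ℕ}
    (hk : (k : ℝ) * H ≤ H ^ 2) :
    ((((Icc 1 N).filter (fun n : ℕ => H < n)).filter (fun n : ℕ => ∃ l : ℕ, 1 ≤ l ∧
      |((k : ℝ) - k') * H - 2 * Real.pi * n * l| < Real.pi * H)).card : ℝ) ≤
      2 * H * (1 + Real.log N) := by
  classical
  have hH0 : 0 < H := by linarith
  have hpi := Real.pi_pos
  have hN1 : (1 : ℝ) ≤ N := hH.trans hHN
  set F := ((Icc 1 N).filter (fun n : ℕ => H < n)).filter (fun n : ℕ => ∃ l : ℕ, 1 ≤ l ∧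
      |((k : ℝ) - k') * H - 2 * Real.pi * n * l| < Real.pi * H) with hF
  set L : ℕ := ⌊H⌋₊ with hL
  have hLH : (L : ℝ) ≤ H := Nat.floor_le hH0.le
  have hL1 : 1 ≤ L := by
    rw [hL, Nat.one_le_floor_iff]
    exact hH
  set E : ℕ → Finset ℕ := fun l => (Icc 1 N).filter (fun n : ℕ =>
      |((k : ℝ) - k') * H - 2 * Real.pi * n * l| < Real.pi * H) with hE
  have hsub : F ⊆ (Icc 1 L).biUnion E := by
    intro n hn
    obtain ⟨hn1, l, hl1, hl⟩ := mem_filter.1 hn
    obtain ⟨hn2, hn3⟩ := mem_filter.1 hn1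
    rw [mem_biUnion]
    refine ⟨l, ?_, mem_filter.2 ⟨hn2, hl⟩⟩
    rw [mem_Icc]
    refine ⟨hl1, ?_⟩
    rw [hL, Nat.le_floor_iff hH0.le]
    have h1 := (abs_lt.1 hl).1
    have hl0 : (1 : ℝ) ≤ l := by exact_mod_cast hl1
    have hk'0 : (0 : ℝ) ≤ k' * H := by positivity
    have h2 : 2 * Real.pi * n * l < H ^ 2 + Real.pi * H := by nlinarith
    have h3 : 2 * Real.pi * H * l ≤ 2 * Real.pi * n * l := by
      have : 2 * Real.pi * H ≤ 2 * Real.pi * n := by nlinarith
      nlinarith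
    have h4 : H * (2 * Real.pi * l) < H * (H + Real.pi) := by nlinarith
    have h5 : 2 * Real.pi * l < H + Real.pi := lt_of_mul_lt_mul_left h4 hH0.le
    have h6 := Real.pi_gt_three
    nlinarith
  have hEl : ∀ l ∈ Icc 1 L, ((E l).card : ℝ) ≤ H * (l : ℝ)⁻¹ + 1 := by
    intro l hl
    have hl0 : (0 : ℝ) < l := by
      have := (mem_Icc.1 hl).1
      exact_mod_cast this
    have := card_near (E l) (((k : ℝ) - k') * H / (2 * Real.pi * l)) (H / (2 * l)) (by positivity)
      (by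
        intro n hn
        have h1 := (mem_filter.1 hn).2
        have h2 : (n : ℝ) - ((k : ℝ) - k') * H / (2 * Real.pi * l) =
            -((((k : ℝ) - k') * H - 2 * Real.pi * n * l) / (2 * Real.pi * l)) := by
          field_simp
          ring
        rw [h2, abs_neg, abs_div, abs_of_pos (show 0 < 2 * Real.pi * (l : ℝ) by positivity),
          div_le_div_iff₀ (by positivity) (by positivity)]
        have h3 : |((k : ℝ) - k') * H - 2 * Real.pi * n * l| * (2 * l) ≤
            (Real.pi * H) * (2 * l) := mul_le_mul_of_nonneg_right h1.le (by positivity)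
        linarith)
    refine this.trans (le_of_eq ?_)
    field_simp
  have h1 : (F.card : ℝ) ≤ ∑ l ∈ Icc 1 L, (H * (l : ℝ)⁻¹ + 1) := by
    have h2 : (F.card : ℝ) ≤ ∑ l ∈ Icc 1 L, ((E l).card : ℝ) := by
      exact_mod_cast (Finset.card_le_card hsub).trans Finset.card_biUnion_le
    exact h2.trans (Finset.sum_le_sum hEl)
  have h2 : ∑ l ∈ Icc 1 L, (H * (l : ℝ)⁻¹ + 1) = H * ((harmonic L : ℚ) : ℝ) + L := by
    rw [Finset.sum_add_distrib, ← Finset.mul_sum, harmonic_eq_sum_Icc]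
    push_cast
    simp
  have h3 := harmonic_le_one_add_log L
  have h4 : Real.log L ≤ Real.log N := by
    apply Real.log_le_log
    · exact_mod_cast hL1
    · linarith
  have h5 : 0 ≤ Real.log N := Real.log_nonneg hN1
  rw [h2] at h1
  have h6 : H * ((harmonic L : ℚ) : ℝ) ≤ H * (1 + Real.log N) :=
    mul_le_mul_of_nonneg_left (by linarith) hH0.le
  have h7 : 0 ≤ H * Real.log N := mul_nonneg hH0.le h5
  linarith

theorem sum_pr_le {H : ℝ} (hH : 1 ≤ H) {N : ℕ} (hHN : H ≤ N) (I : Finset ℕ)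
    (hI : ∀ k ∈ I, (k : ℝ) * H ≤ H ^ 2) :
    ∑ n ∈ (Icc 1 N).filter (fun n : ℕ => H < n), ((pr H I n).card : ℝ) ≤
      (I.card : ℝ) ^ 2 * (2 * H * (1 + Real.log N)) := by
  classical
  have h1 : ∀ n ∈ (Icc 1 N).filter (fun n : ℕ => H < n), ((pr H I n).card : ℝ) =
      ∑ p ∈ I ×ˢ I, (if ∃ l : ℕ, 1 ≤ l ∧
        |((p.1 : ℝ) - p.2) * H - 2 * Real.pi * n * l| < Real.pi * H then (1 : ℝ) else 0) := by
    intro n _
    unfold pr
    rw [Finset.sum_boole]
  rw [Finset.sum_congr rfl h1, Finset.sum_comm]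
  have h2 : ∀ p ∈ I ×ˢ I, ∑ n ∈ (Icc 1 N).filter (fun n : ℕ => H < n), (if ∃ l : ℕ, 1 ≤ l ∧
        |((p.1 : ℝ) - p.2) * H - 2 * Real.pi * n * l| < Real.pi * H then (1 : ℝ) else 0) ≤
        2 * H * (1 + Real.log N) := by
    intro p hp
    rw [Finset.sum_boole]
    exact card_n_le hH hHN (hI p.1 (mem_product.1 hp).1)
  refine (Finset.sum_le_sum h2).trans (le_of_eq ?_)
  rw [Finset.sum_const, card_product, nsmul_eq_mul]
  push_cast
  ring

theorem sum_mult_le {H : ℝ} (hH : 1 ≤ H) {N : ℕ} (hHN : H ≤ N) (I : Finset ℕ)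
    (hI : ∀ k ∈ I, (k : ℝ) * H ≤ H ^ 2) :
    ∑ n ∈ Icc 1 N, (mult H I n : ℝ) ≤
      14 * (1 + Real.log N) * (N + I.card * Real.sqrt (N * H)) := by
  classical
  have hH0 : 0 < H := by linarith
  have hN1 : (1 : ℝ) ≤ N := hH.trans hHN
  have hlog : 0 ≤ Real.log N := Real.log_nonneg hN1
  set J : ℝ := (I.card : ℝ) with hJ
  have hJ0 : 0 ≤ J := Nat.cast_nonneg _
  set R : ℝ := Real.sqrt (N * H) with hR
  have hR0 : 0 ≤ R := Real.sqrt_nonneg _
  have hHR : H ≤ R := by
    rw [hR]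
    apply Real.le_sqrt_of_sq_le
    nlinarith
  rw [← Finset.sum_filter_add_sum_filter_not (Icc 1 N) (fun n : ℕ => H < n)]
  set F := (Icc 1 N).filter (fun n : ℕ => H < n) with hF
  -- the large n
  have hbig : ∑ n ∈ F, (mult H I n : ℝ) ≤ 14 * N + 2 * (J * Real.sqrt (2 * (1 + Real.log N)) * R) := by
    have h1 : ∑ n ∈ F, (mult H I n : ℝ) ≤ ∑ n ∈ F, (14 + 2 * Real.sqrt ((pr H I n).card)) := by
      apply Finset.sum_le_sum
      intro n hn
      exact mult_le_sqrt hH I (mem_Icc.1 (mem_filter.1 hn).1).1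
    have hFN : (F.card : ℝ) ≤ N := by
      have h2 : F.card ≤ (Icc 1 N).card := Finset.card_filter_le _ _
      rw [Nat.card_Icc, Nat.add_sub_cancel] at h2
      exact_mod_cast h2
    have h2 : (∑ n ∈ F, Real.sqrt ((pr H I n).card)) ^ 2 ≤
        N * (J ^ 2 * (2 * H * (1 + Real.log N))) := by
      have h3 := Finset.sum_mul_sq_le_sq_mul_sq F (fun _ => (1 : ℝ))
        (fun n => Real.sqrt ((pr H I n).card))
      simp only [one_mul, one_pow, Finset.sum_const, nsmul_eq_mul, mul_one] at h3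
      have h4 : ∑ n ∈ F, Real.sqrt ((pr H I n).card) ^ 2 = ∑ n ∈ F, ((pr H I n).card : ℝ) := by
        apply Finset.sum_congr rfl
        intro n _
        exact Real.sq_sqrt (Nat.cast_nonneg _)
      rw [h4] at h3
      have h5 := sum_pr_le hH hHN I hI
      refine h3.trans ?_
      apply mul_le_mul hFN h5 (Finset.sum_nonneg fun _ _ => Nat.cast_nonneg _) (by linarith)
    have h3 : ∑ n ∈ F, Real.sqrt ((pr H I n).card) ≤ J * Real.sqrt (2 * (1 + Real.log N)) * R := by
      have h4 : (J * Real.sqrt (2 * (1 + Real.log N)) * R) ^ 2 =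
          N * (J ^ 2 * (2 * H * (1 + Real.log N))) := by
        rw [mul_pow, mul_pow, Real.sq_sqrt (by positivity), hR, Real.sq_sqrt (by positivity)]
        ring
      rw [← h4] at h2
      exact le_of_sq_le_sq h2 (by positivity)
    have h4 : ∑ n ∈ F, (14 + 2 * Real.sqrt ((pr H I n).card)) =
        14 * F.card + 2 * ∑ n ∈ F, Real.sqrt ((pr H I n).card) := by
      rw [Finset.sum_add_distrib, ← Finset.mul_sum, Finset.sum_const, nsmul_eq_mul, mul_comm]
    linarith
  -- the small n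
  have hsmall : ∑ n ∈ (Icc 1 N).filter (fun n : ℕ => ¬ H < n), (mult H I n : ℝ) ≤ J * H := by
    have h1 : ∑ n ∈ (Icc 1 N).filter (fun n : ℕ => ¬ H < n), (mult H I n : ℝ) ≤
        ∑ n ∈ (Icc 1 N).filter (fun n : ℕ => ¬ H < n), J := by
      apply Finset.sum_le_sum
      intro n _
      rw [hJ]
      exact_mod_cast mult_le_card H I n
    have h2 : (((Icc 1 N).filter (fun n : ℕ => ¬ H < n)).card : ℝ) ≤ H := by
      have h3 : (Icc 1 N).filter (fun n : ℕ => ¬ H < n) ⊆ Icc 1 ⌊H⌋₊ := by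
        intro n hn
        obtain ⟨h4, h5⟩ := mem_filter.1 hn
        rw [mem_Icc]
        refine ⟨(mem_Icc.1 h4).1, ?_⟩
        rw [Nat.le_floor_iff hH0.le]
        exact not_lt.1 h5
      have h4 := Finset.card_le_card h3
      rw [Nat.card_Icc, Nat.add_sub_cancel] at h4
      calc (((Icc 1 N).filter (fun n : ℕ => ¬ H < n)).card : ℝ) ≤ (⌊H⌋₊ : ℝ) := by exact_mod_cast h4
        _ ≤ H := Nat.floor_le hH0.le
    rw [Finset.sum_const, nsmul_eq_mul] at h1
    nlinarith
  have hsq : Real.sqrt (2 * (1 + Real.log N)) ≤ 2 * (1 + Real.log N) := by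
    rw [Real.sqrt_le_left (by positivity)]
    nlinarith
  have h1 : J * Real.sqrt (2 * (1 + Real.log N)) * R ≤ J * (2 * (1 + Real.log N)) * R := by
    apply mul_le_mul_of_nonneg_right _ hR0
    exact mul_le_mul_of_nonneg_left hsq hJ0
  have h2 : J * H ≤ J * R := mul_le_mul_of_nonneg_left hHR hJ0
  have h3 : 0 ≤ J * R := by positivity
  have h4 : 0 ≤ J * R * Real.log N := by positivity
  have h5 : 0 ≤ (N : ℝ) * Real.log N := by positivity
  nlinarith

end Pool.Agent.W170.MV
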