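import Pool.Agent.W170.MV.Main
import Pool.Agent.W170.MV.Count

set_option autoImplicit false

/-!
# Dirichlet polynomials on clustered sets: the final estimates
-/

namespace Pool.Agent.W170.MV

open Finset

/-- the number of cells `[kH, (k+1)H)` which meet `S` -/
noncomputable def cells (H : ℝ) (S : Finset ℝ) : ℕ := (S.image (fun t => ⌊t / H⌋₊)).card

theorem clustered_neg {H : ℝ} (hH : 1 ≤ H) (N : ℕ) (hN : 1 ≤ N) (a : ℕ → ℂ)
    (ha : ∀ n, ‖a n‖ ≤ 1) (S : Finset ℝ) (hS : ∀ t ∈ S, 0 ≤ t ∧ t ≤ H ^ 2)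
    (hsep : ∀ t ∈ S, ∀ u ∈ S, t ≠ u → 1 ≤ |t - u|) :
    ∑ t ∈ S, ‖∑ n ∈ Icc 1 N, a n * Complex.exp (-(Complex.I * (t * Real.log n : ℝ)))‖ ^ 2 ≤
      84 * C1 * (1 + Real.log N) ^ 3 * N *
        (N + cells H S * (H + Real.sqrt (N * H))) := by
  have hH0 : 0 < H := by linarith
  have hN1 : (1 : ℝ) ≤ N := by exact_mod_cast hN
  have hL : 0 ≤ Real.log N := Real.log_nonneg hN1
  have hC := C1_pos
  have hmain := main_mult hH N hN a ha S hS hsep
  set J : Finset ℕ := S.image (fun t => ⌊t / H⌋₊) with hJ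
  have hcells : (cells H S : ℝ) = J.card := rfl
  rw [hcells]
  set L := Real.log N with hLdef
  have h2 : 2 + L ^ 2 ≤ 2 * (1 + L) ^ 2 := by nlinarith
  have hsq : 0 ≤ Real.sqrt (N * H) := Real.sqrt_nonneg _
  have hJ0 : (0 : ℝ) ≤ J.card := Nat.cast_nonneg _
  have hL1 : 1 ≤ 1 + L := by linarith
  rcases le_or_gt H N with hHN | hHN
  · have hI : ∀ k ∈ J, (k : ℝ) * H ≤ H ^ 2 := by
      intro m hm
      rw [hJ, mem_image] at hm
      obtain ⟨t, ht, rfl⟩ := hm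
      have h1 := Nat.floor_le (div_nonneg (hS t ht).1 hH0.le)
      rw [le_div_iff₀ hH0] at h1
      linarith [(hS t ht).2]
    have hcount := sum_mult_le hH hHN J hI
    have hM0 : (0 : ℝ) ≤ ∑ n ∈ Icc 1 N, (mult H J n : ℝ) := sum_nonneg (fun _ _ => Nat.cast_nonneg _)
    calc ∑ t ∈ S, ‖∑ n ∈ Icc 1 N, a n * Complex.exp (-(Complex.I * (t * Real.log n : ℝ)))‖ ^ 2
        ≤ C1 * (2 + L ^ 2) * (2 * N + H) * ∑ n ∈ Icc 1 N, (mult H J n : ℝ) := hmain
      _ ≤ C1 * (2 * (1 + L) ^ 2) * (3 * N) *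
          (14 * (1 + L) * (N + J.card * Real.sqrt (N * H))) := by
          have : 2 * (N : ℝ) + H ≤ 3 * N := by linarith
          gcongr
      _ = 84 * C1 * (1 + L) ^ 3 * N * (N + J.card * Real.sqrt (N * H)) := by ring
      _ ≤ 84 * C1 * (1 + L) ^ 3 * N * (N + J.card * (H + Real.sqrt (N * H))) := by
          gcongr
          linarith
  · have hcount : ∑ n ∈ Icc 1 N, (mult H J n : ℝ) ≤ N * J.card := by
      calc ∑ n ∈ Icc 1 N, (mult H J n : ℝ) ≤ ∑ n ∈ Icc 1 N, (J.card : ℝ) := by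
            apply sum_le_sum
            intro n _
            exact_mod_cast mult_le_card H J n
        _ = N * J.card := by
            rw [sum_const, Nat.card_Icc, nsmul_eq_mul]
            simp
    calc ∑ t ∈ S, ‖∑ n ∈ Icc 1 N, a n * Complex.exp (-(Complex.I * (t * Real.log n : ℝ)))‖ ^ 2
        ≤ C1 * (2 + L ^ 2) * (2 * N + H) * ∑ n ∈ Icc 1 N, (mult H J n : ℝ) := hmain
      _ ≤ C1 * (2 * (1 + L) ^ 2) * (3 * H) * (N * J.card) := by
          have : 2 * (N : ℝ) + H ≤ 3 * H := by linarith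
          gcongr
      _ = 6 * C1 * (1 + L) ^ 2 * N * (J.card * H) := by ring
      _ ≤ 84 * C1 * (1 + L) ^ 3 * N * (J.card * H) := by
          have h6 : 6 * C1 ≤ 84 * C1 := by linarith
          have h3 : (1 + L) ^ 2 ≤ (1 + L) ^ 3 := pow_le_pow_right₀ hL1 (by norm_num)
          gcongr
      _ ≤ 84 * C1 * (1 + L) ^ 3 * N * (N + J.card * (H + Real.sqrt (N * H))) := by
          gcongr
          nlinarith [mul_nonneg hJ0 hsq]

theorem norm_sum_conj (s : Finset ℕ) (a : ℕ → ℂ) (t : ℝ) :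
    ‖∑ n ∈ s, a n * Complex.exp (Complex.I * (t * Real.log n : ℝ))‖ =
      ‖∑ n ∈ s, (starRingEnd ℂ) (a n) * Complex.exp (-(Complex.I * (t * Real.log n : ℝ)))‖ := by
  rw [← Complex.norm_conj, map_sum]
  congr 1
  apply sum_congr rfl
  intro n _
  rw [map_mul, ← Complex.exp_conj, map_mul, Complex.conj_I, Complex.conj_ofReal, neg_mul]

theorem clustered_pos {H : ℝ} (hH : 1 ≤ H) (N : ℕ) (hN : 1 ≤ N) (a : ℕ → ℂ)
    (ha : ∀ n, ‖a n‖ ≤ 1) (S : Finset ℝ) (hS : ∀ t ∈ S, 0 ≤ t ∧ t ≤ H ^ 2)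
    (hsep : ∀ t ∈ S, ∀ u ∈ S, t ≠ u → 1 ≤ |t - u|) :
    ∑ t ∈ S, ‖∑ n ∈ Icc 1 N, a n * Complex.exp (Complex.I * (t * Real.log n : ℝ))‖ ^ 2 ≤
      84 * C1 * (1 + Real.log N) ^ 3 * N *
        (N + cells H S * (H + Real.sqrt (N * H))) := by
  have := clustered_neg hH N hN (fun n => (starRingEnd ℂ) (a n))
    (fun n => by rw [Complex.norm_conj]; exact ha n) S hS hsep
  refine le_trans (le_of_eq ?_) this
  apply sum_congr rfl
  intro t _
  rw [norm_sum_conj]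

theorem log_two_mul_le (N : ℕ) (hN : 1 ≤ N) :
    1 + Real.log ((2 * N : ℕ) : ℝ) ≤ 2 * (1 + Real.log N) := by
  have hN1 : (1 : ℝ) ≤ N := by exact_mod_cast hN
  have hL : 0 ≤ Real.log N := Real.log_nonneg hN1
  have h2 : Real.log 2 ≤ 1 := by
    have := Real.log_two_lt_d9
    linarith
  push_cast
  rw [Real.log_mul (by norm_num) (by linarith)]
  linarith

theorem clustered_dyadic {H : ℝ} (hH : 1 ≤ H) (N : ℕ) (hN : 1 ≤ N) (b : ℕ → ℂ)
    (hb : ∀ n ∈ Icc N (2 * N), ‖b n‖ ≤ 1) (S : Finset ℝ) (hS : ∀ t ∈ S, 0 ≤ t ∧ t ≤ H ^ 2)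
    (hsep : ∀ t ∈ S, ∀ u ∈ S, t ≠ u → 1 ≤ |t - u|) :
    ∑ t ∈ S, ‖∑ n ∈ Icc N (2 * N), b n * Complex.exp (Complex.I * (t * Real.log n : ℝ))‖ ^ 2 ≤
      2688 * C1 * (1 + Real.log N) ^ 3 * N *
        (N + cells H S * (H + Real.sqrt (N * H))) := by
  classical
  have hH0 : 0 < H := by linarith
  have hN1 : (1 : ℝ) ≤ N := by exact_mod_cast hN
  have hL : 0 ≤ Real.log N := Real.log_nonneg hN1
  have hC := C1_pos
  have h := clustered_pos hH (2 * N) (by omega)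
    (fun n => if n ∈ Icc N (2 * N) then b n else 0)
    (fun n => by
      split_ifs with hn
      · exact hb n hn
      · simp) S hS hsep
  have heq : ∀ t : ℝ, ∑ n ∈ Icc 1 (2 * N), (if n ∈ Icc N (2 * N) then b n else 0) *
      Complex.exp (Complex.I * (t * Real.log n : ℝ)) =
      ∑ n ∈ Icc N (2 * N), b n * Complex.exp (Complex.I * (t * Real.log n : ℝ)) := by
    intro t
    symm
    have hsub : Icc N (2 * N) ⊆ Icc 1 (2 * N) := by
      intro n hn
      rw [mem_Icc] at hn ⊢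
      omega
    rw [← sum_subset hsub (f := fun n => (if n ∈ Icc N (2 * N) then b n else 0) *
      Complex.exp (Complex.I * (t * Real.log n : ℝ)))]
    · apply sum_congr rfl
      intro n hn
      rw [if_pos hn]
    · intro n _ hn
      rw [if_neg hn, zero_mul]
  simp only [heq] at h
  refine h.trans ?_
  have hlog := log_two_mul_le N hN
  have hlog0 : 0 ≤ 1 + Real.log ((2 * N : ℕ) : ℝ) := by
    have : (0:ℝ) ≤ Real.log ((2 * N : ℕ) : ℝ) := Real.log_natCast_nonneg _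
    linarith
  have hsq : Real.sqrt (((2 * N : ℕ) : ℝ) * H) ≤ 2 * Real.sqrt (N * H) := by
    rw [Real.sqrt_le_left (by positivity)]
    rw [mul_pow, Real.sq_sqrt (by positivity)]
    push_cast
    nlinarith
  have hcast : ((2 * N : ℕ) : ℝ) = 2 * N := by push_cast; ring
  calc 84 * C1 * (1 + Real.log ((2 * N : ℕ) : ℝ)) ^ 3 * ((2 * N : ℕ) : ℝ) *
        (((2 * N : ℕ) : ℝ) + cells H S * (H + Real.sqrt (((2 * N : ℕ) : ℝ) * H)))
      ≤ 84 * C1 * (2 * (1 + Real.log N)) ^ 3 * (2 * N) *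
        (2 * N + cells H S * (2 * H + 2 * Real.sqrt (N * H))) := by
        rw [hcast] at hlog0 hlog hsq ⊢
        gcongr
        linarith
    _ = 2688 * C1 * (1 + Real.log N) ^ 3 * N *
        (N + cells H S * (H + Real.sqrt (N * H))) := by ring

theorem rich_points {H V K M : ℝ} (hV : 0 < V) (S : Finset ℝ)
    (F : ℝ → ℝ) (hF : ∀ t ∈ S, V ≤ F t) (r : ℕ)
    (hbound : ∀ S' ⊆ S, ∑ t ∈ S', F t ^ 2 ≤ K + cells H S' * M)
    (hr : 2 * M ≤ r * V ^ 2) :
    ((S.filter (fun t => r ≤ (S.filter (fun u => ⌊u / H⌋₊ = ⌊t / H⌋₊)).card)).card : ℝ) ≤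
      2 * K / V ^ 2 := by
  classical
  set S' := S.filter (fun t => r ≤ (S.filter (fun u => ⌊u / H⌋₊ = ⌊t / H⌋₊)).card) with hS'
  have hsub : S' ⊆ S := filter_subset _ _
  have h1 := hbound S' hsub
  have hV2 : 0 < V ^ 2 := by positivity
  have h2 : (S'.card : ℝ) * V ^ 2 ≤ ∑ t ∈ S', F t ^ 2 := by
    rw [← nsmul_eq_mul]
    apply card_nsmul_le_sum
    intro t ht
    exact pow_le_pow_left₀ hV.le (hF t (hsub ht)) 2
  -- each cell of S' has at least r points of S'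
  have h3 : r * (S'.image (fun t => ⌊t / H⌋₊)).card ≤ S'.card := by
    have := card_eq_sum_card_image (fun t : ℝ => ⌊t / H⌋₊) S'
    rw [this, mul_comm, ← smul_eq_mul]
    apply card_nsmul_le_sum
    intro k hk
    rw [mem_image] at hk
    obtain ⟨t, ht, rfl⟩ := hk
    have ht' := (mem_filter.1 ht).2
    refine ht'.trans (card_le_card ?_)
    intro u hu
    rw [mem_filter] at hu ⊢
    refine ⟨?_, hu.2⟩
    rw [hS', mem_filter]
    refine ⟨hu.1, ?_⟩
    rw [hu.2]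
    exact ht'
  have h3' : (r : ℝ) * cells H S' ≤ S'.card := by
    have : ((r * (S'.image (fun t => ⌊t / H⌋₊)).card : ℕ) : ℝ) ≤ S'.card := by exact_mod_cast h3
    rw [Nat.cast_mul] at this
    exact this
  rw [le_div_iff₀ hV2]
  have hc0 : (0 : ℝ) ≤ cells H S' := Nat.cast_nonneg _
  have h4 : 2 * (cells H S' * M) ≤ S'.card * V ^ 2 := by
    calc 2 * (cells H S' * M) = cells H S' * (2 * M) := by ring
      _ ≤ cells H S' * (r * V ^ 2) := by gcongr
      _ = (r * cells H S') * V ^ 2 := by ring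
      _ ≤ S'.card * V ^ 2 := by gcongr
  linarith

end Pool.Agent.W170.MV
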