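import Pool.Agent.W170.MV.Block

set_option autoImplicit false

/-!
# Dirichlet polynomials on clustered sets: the multiplicity bound
-/

namespace Pool.Agent.W170.MV

open Finset

/-- the absolute constant of the multiplicity bound -/
noncomputable def C1 : ℝ := 2 * Real.pi * Real.exp 1 ^ 4 * (2 + (2 * Real.pi) ^ 2)

theorem C1_pos : 0 < C1 := by
  unfold C1
  have := Real.pi_pos
  positivity

theorem main_mult {H : ℝ} (hH : 1 ≤ H) (N : ℕ) (hN : 1 ≤ N) (a : ℕ → ℂ)
    (ha : ∀ n, ‖a n‖ ≤ 1) (S : Finset ℝ) (hS : ∀ t ∈ S, 0 ≤ t ∧ t ≤ H ^ 2)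
    (hsep : ∀ t ∈ S, ∀ u ∈ S, t ≠ u → 1 ≤ |t - u|) :
    ∑ t ∈ S, ‖∑ n ∈ Icc 1 N, a n * Complex.exp (-(Complex.I * (t * Real.log n : ℝ)))‖ ^ 2 ≤
      C1 * (2 + Real.log N ^ 2) * (2 * N + H) *
        ∑ n ∈ Icc 1 N, (mult H (S.image (fun t => ⌊t / H⌋₊)) n : ℝ) := by
  classical
  have hH0 : 0 < H := by linarith
  have hpi := Real.pi_pos
  have hN1 : (1 : ℝ) ≤ N := by exact_mod_cast hN
  have hlogN : 0 ≤ Real.log N := Real.log_nonneg hN1
  set J : Finset ℕ := S.image (fun t => ⌊t / H⌋₊) with hJ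
  set k : ℝ → ℕ := fun t => ⌊t / H⌋₊ with hk
  set u : ℝ → ℝ := fun t => t - k t * H with hu
  set j : ℕ → ℕ := fun n => ⌊H * Real.log n⌋₊ with hj
  set x : ℕ → ℝ := fun n => Real.log n - (j n : ℝ) / H with hx
  have hu01 : ∀ t ∈ S, 0 ≤ u t ∧ u t < H := by
    intro t ht
    have h0 : 0 ≤ t / H := div_nonneg (hS t ht).1 hH0.le
    have h1 := Nat.floor_le h0
    have h2 := Nat.lt_floor_add_one (t / H)
    rw [le_div_iff₀ hH0] at h1
    rw [div_lt_iff₀ hH0] at h2
    simp only [hu, hk]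
    constructor
    · linarith
    · nlinarith
  have hkJ : ∀ t ∈ S, k t ∈ J := fun t ht => mem_image_of_mem _ ht
  have hJle : ∀ m ∈ J, (m : ℝ) * H ≤ H ^ 2 := by
    intro m hm
    obtain ⟨t, ht, rfl⟩ := mem_image.1 hm
    have h1 := Nat.floor_le (div_nonneg (hS t ht).1 hH0.le)
    rw [le_div_iff₀ hH0] at h1
    exact h1.trans (hS t ht).2
  have hlogn : ∀ n ∈ Icc 1 N, 0 ≤ Real.log n ∧ Real.log n ≤ Real.log N := by
    intro n hn
    have h1 := mem_Icc.1 hn
    have h2 : (1 : ℝ) ≤ n := by exact_mod_cast h1.1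
    refine ⟨Real.log_nonneg h2, Real.log_le_log (by linarith) (by exact_mod_cast h1.2)⟩
  have hx01 : ∀ n ∈ Icc 1 N, 0 ≤ x n ∧ x n ≤ 1 / H := by
    intro n hn
    have h0 : 0 ≤ H * Real.log n := mul_nonneg hH0.le (hlogn n hn).1
    have h1 := Nat.floor_le h0
    have h2 := (Nat.lt_floor_add_one (H * Real.log n)).le
    simp only [hx, hj]
    constructor
    · rw [sub_nonneg, div_le_iff₀ hH0]
      linarith
    · rw [sub_le_iff_le_add, ← add_div, le_div_iff₀ hH0]
      linarith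
  have hjn : ∀ n ∈ Icc 1 N, j n ≤ j N := by
    intro n hn
    apply Nat.floor_mono
    exact mul_le_mul_of_nonneg_left (hlogn n hn).2 hH0.le
  -- blocks
  set Bl : ℕ → Finset ℕ := fun i => (Icc 1 N).filter (fun n => j n = i) with hBl
  have hBllog : ∀ i, ∀ n ∈ Bl i, ∀ n' ∈ Bl i, |Real.log n - Real.log n'| ≤ 1 / H := by
    intro i n hn n' hn'
    obtain ⟨h1, h2⟩ := mem_filter.1 hn
    obtain ⟨h3, h4⟩ := mem_filter.1 hn'
    have h5 := hx01 n h1
    have h6 := hx01 n' h3
    have h7 : Real.log n - Real.log n' = x n - x n' := by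
      simp only [hx, h2, h4]
      ring
    rw [h7, abs_le]
    constructor <;> linarith [h5.1, h5.2, h6.1, h6.2]
  set K : ℝ → ℕ → ℂ := fun t n =>
    Complex.exp (-(Complex.I * ((k t : ℝ) * H * Real.log n : ℝ))) *
      Complex.exp ((-((j n : ℂ) / H) * Complex.I) * u t) with hK
  set M : ℝ := 2 * Real.pi * H * (2 + Real.log N ^ 2) * (Real.exp 1 ^ 2 *
    (2 + (2 * Real.pi) ^ 2)) * ∑ n ∈ Icc 1 N, (mult H J n : ℝ) * QQ H n with hM
  have hbound : ∀ b' : ℕ → ℂ, (∀ n ∈ Icc 1 N, ‖b' n‖ ≤ ‖a n‖) →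
      ∑ t ∈ S, ‖∑ n ∈ Icc 1 N, K t n * b' n‖ ^ 2 ≤ M := by
    intro b' hb'
    have hb1 : ∀ n ∈ Icc 1 N, ‖b' n‖ ≤ 1 := fun n hn => (hb' n hn).trans (ha n)
    set c : ℕ → ℕ → ℂ := fun m i =>
      ∑ n ∈ Bl i, b' n * Complex.exp (-(Complex.I * ((m : ℝ) * H * Real.log n : ℝ))) with hc
    have e1 : ∀ t ∈ S, ∑ n ∈ Icc 1 N, K t n * b' n = FF H (range (j N + 1)) (c (k t)) (u t) := by
      intro t _
      unfold FF
      rw [← Finset.sum_fiberwise_of_maps_to (t := range (j N + 1)) (g := j)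
        (fun n hn => mem_range.2 (Nat.lt_succ_of_le (hjn n hn)))]
      apply Finset.sum_congr rfl
      intro i _
      rw [hc]
      dsimp only
      rw [Finset.sum_mul]
      apply Finset.sum_congr rfl
      intro n hn
      rw [hK]
      dsimp only
      rw [(mem_filter.1 hn).2]
      ring
    have e2 : ∑ t ∈ S, ‖∑ n ∈ Icc 1 N, K t n * b' n‖ ^ 2 =
        ∑ m ∈ J, ∑ t ∈ S.filter (fun t => k t = m),
          ‖FF H (range (j N + 1)) (c m) (u t)‖ ^ 2 := by
      rw [Finset.sum_congr rfl (fun t ht => by rw [e1 t ht])]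
      rw [← Finset.sum_fiberwise_of_maps_to (t := J) (g := k) hkJ]
      apply Finset.sum_congr rfl
      intro m _
      apply Finset.sum_congr rfl
      intro t ht
      rw [(mem_filter.1 ht).2]
    have e3 : ∀ m ∈ J, ∑ t ∈ S.filter (fun t => k t = m),
        ‖FF H (range (j N + 1)) (c m) (u t)‖ ^ 2 ≤
          2 * Real.pi * H * (2 + Real.log N ^ 2) * ∑ i ∈ range (j N + 1), ‖c m i‖ ^ 2 := by
      intro m _
      have hL : ((⌈H⌉₊ : ℕ) : ℝ) ≤ 2 * Real.pi * H := by
        have h1 := (Nat.ceil_lt_add_one hH0.le).le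
        have h2 := Real.pi_gt_three
        nlinarith
      have := pieces hH0 (range (j N + 1)) (c m) ⌈H⌉₊ hL (S.filter (fun t => k t = m)) u
        (fun t => ⌊u t⌋₊) (by
          intro t ht
          obtain ⟨h1, h2⟩ := hu01 t (mem_filter.1 ht).1
          refine ⟨?_, Nat.floor_le h1, (Nat.lt_floor_add_one _).le⟩
          rw [Nat.floor_lt h1]
          exact lt_of_lt_of_le h2 (Nat.le_ceil _)) 1 (by
          intro i _
          rw [Finset.card_le_one]
          intro t ht t' ht'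
          obtain ⟨h1, h2⟩ := mem_filter.1 ht
          obtain ⟨h3, h4⟩ := mem_filter.1 ht'
          obtain ⟨h5, h6⟩ := mem_filter.1 h1
          obtain ⟨h7, h8⟩ := mem_filter.1 h3
          by_contra hne
          have h9 := hsep t h5 t' h7 hne
          have h10 : t - t' = u t - u t' := by
            simp only [hu]
            rw [h6, h8]
            ring
          have h11 := Nat.floor_le (hu01 t h5).1
          have h12 := Nat.lt_floor_add_one (u t)
          have h13 := Nat.floor_le (hu01 t' h7).1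
          have h14 := Nat.lt_floor_add_one (u t')
          rw [h2] at h11 h12
          rw [h4] at h13 h14
          have h15 : |u t - u t'| < 1 := by
            rw [abs_lt]
            constructor <;> linarith
          rw [h10] at h9
          linarith) (Real.log N) (by
          intro i hi
          rw [div_le_iff₀ hH0]
          have h1 : (i : ℝ) ≤ j N := by
            have := mem_range.1 hi
            exact_mod_cast (by omega : i ≤ j N)
          have h2 := Nat.floor_le (mul_nonneg hH0.le hlogN)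
          have h3 : ((j N : ℕ) : ℝ) ≤ H * Real.log N := h2
          linarith)
      refine this.trans (le_of_eq ?_)
      push_cast
      ring
    have e4 : ∀ i ∈ range (j N + 1), ∑ m ∈ J, ‖c m i‖ ^ 2 ≤
        (Real.exp 1 ^ 2 * (2 + (2 * Real.pi) ^ 2)) *
          ∑ n ∈ Bl i, (mult H J n : ℝ) * QQ H n := by
      intro i _
      rcases (Bl i).eq_empty_or_nonempty with hemp | hne
      · have : ∀ m, c m i = 0 := by
          intro m
          simp only [hc, hemp, Finset.sum_empty]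
        simp only [this, hemp, Finset.sum_empty]
        simp
      · obtain ⟨n₀, hn₀, hmin⟩ := Finset.exists_min_image (Bl i)
          (fun n => (mult H J n : ℝ) * QQ H n) hne
        have hb := block hH (Bl i) n₀ hn₀ (fun n hn => by
          have := (mem_Icc.1 (mem_filter.1 hn).1).1
          omega) (hBllog i) b' J hJle
        refine hb.trans ?_
        have h1 : ∑ n ∈ Bl i, ‖b' n‖ ^ 2 ≤ (Bl i).card := by
          rw [← mul_one ((Bl i).card : ℝ), ← nsmul_eq_mul, ← Finset.sum_const]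
          apply Finset.sum_le_sum
          intro n hn
          exact pow_le_one₀ (norm_nonneg _) (hb1 n (mem_filter.1 hn).1)
        have h2 : (mult H J n₀ : ℝ) * QQ H n₀ * (Bl i).card ≤
            ∑ n ∈ Bl i, (mult H J n : ℝ) * QQ H n := by
          rw [mul_comm, ← nsmul_eq_mul, ← Finset.sum_const]
          exact Finset.sum_le_sum hmin
        have h3 : 0 ≤ (mult H J n₀ : ℝ) * QQ H n₀ := by positivity
        calc Real.exp 1 ^ 2 * (mult H J n₀ * (QQ H n₀ * ((2 + (2 * Real.pi) ^ 2) *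
              ∑ n ∈ Bl i, ‖b' n‖ ^ 2)))
            = (Real.exp 1 ^ 2 * (2 + (2 * Real.pi) ^ 2)) *
              ((mult H J n₀ : ℝ) * QQ H n₀ * ∑ n ∈ Bl i, ‖b' n‖ ^ 2) := by ring
          _ ≤ (Real.exp 1 ^ 2 * (2 + (2 * Real.pi) ^ 2)) *
              ((mult H J n₀ : ℝ) * QQ H n₀ * (Bl i).card) := by
              apply mul_le_mul_of_nonneg_left _ (by positivity)
              exact mul_le_mul_of_nonneg_left h1 h3
          _ ≤ _ := mul_le_mul_of_nonneg_left h2 (by positivity)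
    rw [e2]
    calc ∑ m ∈ J, ∑ t ∈ S.filter (fun t => k t = m), ‖FF H (range (j N + 1)) (c m) (u t)‖ ^ 2
        ≤ ∑ m ∈ J, 2 * Real.pi * H * (2 + Real.log N ^ 2) *
            ∑ i ∈ range (j N + 1), ‖c m i‖ ^ 2 := Finset.sum_le_sum e3
      _ = 2 * Real.pi * H * (2 + Real.log N ^ 2) *
            ∑ i ∈ range (j N + 1), ∑ m ∈ J, ‖c m i‖ ^ 2 := by
          rw [← Finset.mul_sum, Finset.sum_comm]
      _ ≤ 2 * Real.pi * H * (2 + Real.log N ^ 2) * ∑ i ∈ range (j N + 1),
            (Real.exp 1 ^ 2 * (2 + (2 * Real.pi) ^ 2)) *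
              ∑ n ∈ Bl i, (mult H J n : ℝ) * QQ H n := by
          apply mul_le_mul_of_nonneg_left (Finset.sum_le_sum e4)
          positivity
      _ = M := by
          rw [← Finset.mul_sum, Finset.sum_fiberwise_of_maps_to
            (fun n hn => mem_range.2 (Nat.lt_succ_of_le (hjn n hn)))]
          ring
  have hfin := sep S (Icc 1 N) K a (fun t => - u t) x H (1 / H) M hH0.le (by positivity)
    (by
      intro t ht
      obtain ⟨h1, h2⟩ := hu01 t ht
      rw [abs_neg, abs_of_nonneg h1]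
      exact h2.le) (by
      intro n hn
      obtain ⟨h1, h2⟩ := hx01 n hn
      rw [abs_of_nonneg h1]
      exact h2) hbound
  have hUX : H * (1 / H) = 1 := by field_simp
  rw [hUX] at hfin
  have hlhs : ∑ t ∈ S, ‖∑ n ∈ Icc 1 N, a n * Complex.exp (-(Complex.I * (t * Real.log n : ℝ)))‖ ^ 2 =
      ∑ t ∈ S, ‖∑ n ∈ Icc 1 N, K t n *
        (Complex.exp (Complex.I * ((-u t) * x n : ℝ)) * a n)‖ ^ 2 := by
    apply Finset.sum_congr rfl
    intro t _
    congr 2
    apply Finset.sum_congr rfl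
    intro n _
    rw [hK]
    dsimp only
    rw [← mul_assoc, ← Complex.exp_add, ← Complex.exp_add, mul_comm]
    congr 2
    have hreal : t * Real.log n = (k t : ℝ) * H * Real.log n + ((j n : ℝ) / H) * u t +
        u t * x n := by
      simp only [hx, hu]
      ring
    rw [hreal]
    push_cast
    ring
  rw [hlhs]
  refine hfin.trans ?_
  have hQ : ∀ n ∈ Icc 1 N, (mult H J n : ℝ) * QQ H n ≤ (mult H J n : ℝ) * ((2 * N + H) / H) := by
    intro n hn
    apply mul_le_mul_of_nonneg_left _ (Nat.cast_nonneg _)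
    have h1 : (n : ℝ) ≤ N := by exact_mod_cast (mem_Icc.1 hn).2
    have h2 : ((QQ H n : ℕ) : ℝ) ≤ 2 * n / H + 1 := (Nat.ceil_lt_add_one (by positivity)).le
    have h3 : 2 * (n : ℝ) / H ≤ 2 * N / H := div_le_div_of_nonneg_right (by linarith) hH0.le
    have h5 : (2 * (N : ℝ) + H) / H = 2 * N / H + 1 := by
      rw [add_div, div_self hH0.ne']
    linarith
  have hsumQ : ∑ n ∈ Icc 1 N, (mult H J n : ℝ) * QQ H n ≤
      ((2 * N + H) / H) * ∑ n ∈ Icc 1 N, (mult H J n : ℝ) := by
    refine (Finset.sum_le_sum hQ).trans (le_of_eq ?_)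
    rw [← Finset.sum_mul, mul_comm]
  rw [hM]
  calc Real.exp 1 ^ 2 * (2 * Real.pi * H * (2 + Real.log N ^ 2) * (Real.exp 1 ^ 2 *
        (2 + (2 * Real.pi) ^ 2)) * ∑ n ∈ Icc 1 N, (mult H J n : ℝ) * QQ H n)
      ≤ Real.exp 1 ^ 2 * (2 * Real.pi * H * (2 + Real.log N ^ 2) * (Real.exp 1 ^ 2 *
        (2 + (2 * Real.pi) ^ 2)) * (((2 * N + H) / H) * ∑ n ∈ Icc 1 N, (mult H J n : ℝ))) := by
        apply mul_le_mul_of_nonneg_left _ (by positivity)
        exact mul_le_mul_of_nonneg_left hsumQ (by positivity)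
    _ = C1 * (2 + Real.log N ^ 2) * (2 * N + H) * ∑ n ∈ Icc 1 N, (mult H J n : ℝ) := by
        unfold C1
        field_simp

end Pool.Agent.W170.MV
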