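import Mathlib

set_option autoImplicit false

/-!
# Parseval and Gallagher's inequality for sums with frequencies `j / q`
(following `Pool.Agent.W462.EM.LS`)
-/

namespace Pool.Agent.W170.MV

open MeasureTheory Finset
open scoped ComplexConjugate

/-- the exponential sum with frequencies `j / q` -/
noncomputable def FF (q : ℝ) (s : Finset ℕ) (a : ℕ → ℂ) (ξ : ℝ) : ℂ :=
  ∑ j ∈ s, a j * Complex.exp ((-((j : ℂ) / q) * Complex.I) * ξ)

/-- coefficients of the derivative -/
noncomputable def da (q : ℝ) (a : ℕ → ℂ) : ℕ → ℂ := fun j => a j * (-((j : ℂ) / q) * Complex.I)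

theorem FF_deriv (q : ℝ) (s : Finset ℕ) (a : ℕ → ℂ) (ξ : ℝ) :
    HasDerivAt (FF q s a) (FF q s (da q a) ξ) ξ := by
  unfold FF
  have h : ∀ j ∈ s, HasDerivAt (fun ξ : ℝ => a j * Complex.exp ((-((j : ℂ) / q) * Complex.I) * ξ))
      (da q a j * Complex.exp ((-((j : ℂ) / q) * Complex.I) * ξ)) ξ := by
    intro j _
    have h1 : HasDerivAt (fun ξ : ℝ => (-((j : ℂ) / q) * Complex.I) * (ξ : ℂ))
        ((-((j : ℂ) / q) * Complex.I) * 1) ξ :=
      (Complex.ofRealCLM.hasDerivAt (x := ξ)).const_mul _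
    have h2 := (h1.cexp).const_mul (a j)
    refine h2.congr_deriv ?_
    unfold da
    ring
  have := HasDerivAt.fun_sum h
  exact this

theorem FF_cont (q : ℝ) (s : Finset ℕ) (a : ℕ → ℂ) : Continuous (FF q s a) := by
  unfold FF; fun_prop

theorem FF_per {q : ℝ} (hq : 0 < q) (s : Finset ℕ) (a : ℕ → ℂ) :
    Function.Periodic (FF q s a) (2 * Real.pi * q) := by
  intro ξ
  unfold FF
  refine Finset.sum_congr rfl fun j _ => ?_
  congr 1
  have hq' : (q : ℂ) ≠ 0 := by exact_mod_cast hq.ne'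
  have e : (-((j : ℂ) / q) * Complex.I) * ((ξ + 2 * Real.pi * q : ℝ) : ℂ) =
      (-((j : ℂ) / q) * Complex.I) * ξ + ((-(j : ℤ) : ℤ) : ℂ) * (2 * Real.pi * Complex.I) := by
    push_cast
    field_simp
    ring
  rw [e, Complex.exp_add, Complex.exp_int_mul_two_pi_mul_I, mul_one]

theorem exp_int {q : ℝ} (hq : 0 < q) (j k : ℕ) :
    ∫ ξ in (0 : ℝ)..(2 * Real.pi * q), Complex.exp (((((k : ℂ) - j) / q) * Complex.I) * ξ) =
      if j = k then ((2 * Real.pi * q : ℝ) : ℂ) else 0 := by
  have hq' : (q : ℂ) ≠ 0 := by exact_mod_cast hq.ne'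
  split_ifs with h
  · subst h
    simp
  · have hne : (((k : ℂ) - j) / q) * Complex.I ≠ 0 := by
      refine mul_ne_zero (div_ne_zero ?_ hq') Complex.I_ne_zero
      intro h0
      apply h
      have : (k : ℂ) = j := sub_eq_zero.1 h0
      exact_mod_cast this.symm
    rw [integral_exp_mul_complex hne]
    have e : ((((k : ℂ) - j) / q) * Complex.I) * ((2 * Real.pi * q : ℝ) : ℂ) =
        (((k : ℤ) - (j : ℤ) : ℤ) : ℂ) * (2 * Real.pi * Complex.I) := by
      push_cast
      field_simp
    rw [e, Complex.exp_int_mul_two_pi_mul_I]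
    simp

theorem parseval {q : ℝ} (hq : 0 < q) (s : Finset ℕ) (a : ℕ → ℂ) :
    ∫ ξ in (0 : ℝ)..(2 * Real.pi * q), ‖FF q s a ξ‖ ^ 2 = 2 * Real.pi * q * ∑ j ∈ s, ‖a j‖ ^ 2 := by
  have hq' : (q : ℂ) ≠ 0 := by exact_mod_cast hq.ne'
  have h1 : ((∫ ξ in (0 : ℝ)..(2 * Real.pi * q), ‖FF q s a ξ‖ ^ 2 : ℝ) : ℂ) =
      ∫ ξ in (0 : ℝ)..(2 * Real.pi * q), ∑ j ∈ s, ∑ k ∈ s, (a j * conj (a k)) *
        Complex.exp (((((k : ℂ) - j) / q) * Complex.I) * ξ) := by
    rw [← intervalIntegral.integral_ofReal]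
    refine intervalIntegral.integral_congr fun ξ _ => ?_
    have h2 : (((‖FF q s a ξ‖ ^ 2 : ℝ)) : ℂ) = FF q s a ξ * conj (FF q s a ξ) := by
      rw [Complex.mul_conj']; push_cast; rfl
    rw [h2]
    unfold FF
    rw [map_sum, Finset.sum_mul_sum]
    refine Finset.sum_congr rfl fun j _ => Finset.sum_congr rfl fun k _ => ?_
    rw [map_mul, ← Complex.exp_conj]
    have e : conj ((-((k : ℂ) / q) * Complex.I) * (ξ : ℂ)) = (((k : ℂ) / q) * Complex.I) * ξ := by
      simp only [map_mul, map_neg, map_div₀, Complex.conj_I, Complex.conj_ofReal, Complex.conj_natCast]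
      ring
    rw [e]
    have e2 : Complex.exp (((((k : ℂ) - j) / q) * Complex.I) * ξ) =
        Complex.exp ((-((j : ℂ) / q) * Complex.I) * ξ) * Complex.exp ((((k : ℂ) / q) * Complex.I) * ξ) := by
      rw [← Complex.exp_add]; congr 1; ring
    rw [e2]; ring
  have h3 : ∫ ξ in (0 : ℝ)..(2 * Real.pi * q), ∑ j ∈ s, ∑ k ∈ s, (a j * conj (a k)) *
        Complex.exp (((((k : ℂ) - j) / q) * Complex.I) * ξ) =
      ∑ j ∈ s, ∑ k ∈ s, (a j * conj (a k)) * (if j = k then ((2 * Real.pi * q : ℝ) : ℂ) else 0) := by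
    rw [intervalIntegral.integral_finsetSum]
    · refine Finset.sum_congr rfl fun j _ => ?_
      rw [intervalIntegral.integral_finsetSum]
      · refine Finset.sum_congr rfl fun k _ => ?_
        rw [intervalIntegral.integral_const_mul, exp_int hq]
      · intro k _
        apply Continuous.intervalIntegrable
        fun_prop
    · intro k _
      apply Continuous.intervalIntegrable
      fun_prop
  have h4 : (∑ j ∈ s, ∑ k ∈ s, (a j * conj (a k)) *
      (if j = k then ((2 * Real.pi * q : ℝ) : ℂ) else 0)) =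
      ((2 * Real.pi * q * ∑ j ∈ s, ‖a j‖ ^ 2 : ℝ) : ℂ) := by
    have e0 : ((2 * Real.pi * q * ∑ j ∈ s, ‖a j‖ ^ 2 : ℝ) : ℂ) =
        ((2 * Real.pi * q : ℝ) : ℂ) * ∑ j ∈ s, ((‖a j‖ ^ 2 : ℝ) : ℂ) := by
      rw [Complex.ofReal_mul (2 * Real.pi * q), Complex.ofReal_sum]
    rw [e0, Finset.mul_sum]
    refine Finset.sum_congr rfl fun j hj => ?_
    simp only [mul_ite, mul_zero]
    rw [Finset.sum_ite_eq, if_pos hj, Complex.mul_conj']
    push_cast
    ring
  have h5 := h1.trans (h3.trans h4)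
  exact_mod_cast h5

/-- Gallagher's inequality on an interval of length one -/
theorem gall {h h' : ℝ → ℂ} (hd : ∀ ξ, HasDerivAt h (h' ξ) ξ) (hc : Continuous h) (hc' : Continuous h')
    (y ξ : ℝ) (h1 : y ≤ ξ) (h2 : ξ ≤ y + 1) :
    ‖h ξ‖ ^ 2 ≤ ∫ u in y..(y + 1), (2 * ‖h u‖ ^ 2 + ‖h' u‖ ^ 2) := by
  have hg : ∀ u, HasDerivAt (fun u => ‖h u‖ ^ 2) (2 * (inner ℝ (h u) (h' u))) u := fun u =>
    (hd u).norm_sq
  have hcd : Continuous fun u => 2 * (inner ℝ (h u) (h' u)) := by fun_prop
  have hle : ∀ u, |2 * (inner ℝ (h u) (h' u))| ≤ ‖h u‖ ^ 2 + ‖h' u‖ ^ 2 := by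
    intro u
    rw [abs_mul, abs_two]
    have := abs_real_inner_le_norm (h u) (h' u)
    nlinarith [sq_nonneg (‖h u‖ - ‖h' u‖)]
  have hca : Continuous fun u => ‖h u‖ ^ 2 + ‖h' u‖ ^ 2 := by fun_prop
  set I1 := ∫ u in y..(y + 1), (‖h u‖ ^ 2 + ‖h' u‖ ^ 2) with hI1
  have hkey : ∀ u ∈ Set.Icc y (y + 1), ‖h ξ‖ ^ 2 ≤ ‖h u‖ ^ 2 + I1 := by
    intro u hu
    have e := intervalIntegral.integral_eq_sub_of_hasDerivAt (a := u) (b := ξ)
      (fun v _ => hg v) (hcd.intervalIntegrable _ _)
    have h3 : ‖∫ v in u..ξ, 2 * (inner ℝ (h v) (h' v))‖ ≤ I1 := by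
      rw [hI1]
      rcases le_total u ξ with huv | huv
      · refine (intervalIntegral.norm_integral_le_integral_norm huv).trans ?_
        refine (intervalIntegral.integral_mono_on huv (by
          apply Continuous.intervalIntegrable; fun_prop) (hca.intervalIntegrable _ _)
          (fun v _ => hle v)).trans ?_
        exact intervalIntegral.integral_mono_interval hu.1 huv h2
          (Filter.Eventually.of_forall fun v => by simp only [Pi.zero_apply]; positivity)
          (hca.intervalIntegrable _ _)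
      · rw [intervalIntegral.integral_symm, norm_neg]
        refine (intervalIntegral.norm_integral_le_integral_norm huv).trans ?_
        refine (intervalIntegral.integral_mono_on huv (by
          apply Continuous.intervalIntegrable; fun_prop) (hca.intervalIntegrable _ _)
          (fun v _ => hle v)).trans ?_
        exact intervalIntegral.integral_mono_interval h1 huv hu.2
          (Filter.Eventually.of_forall fun v => by simp only [Pi.zero_apply]; positivity)
          (hca.intervalIntegrable _ _)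
    rw [e] at h3
    have h4 := (abs_le.1 h3).2
    linarith
  have h5 : ∫ u in y..(y + 1), ‖h ξ‖ ^ 2 ≤ ∫ u in y..(y + 1), (‖h u‖ ^ 2 + I1) := by
    refine intervalIntegral.integral_mono_on (by linarith) (by simp)
      (by apply Continuous.intervalIntegrable; fun_prop) hkey
  rw [intervalIntegral.integral_const, intervalIntegral.integral_add
    (by apply Continuous.intervalIntegrable; fun_prop) (by simp),
    intervalIntegral.integral_const] at h5
  simp only [add_sub_cancel_left, one_smul] at h5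
  refine h5.trans (le_of_eq ?_)
  rw [hI1, ← intervalIntegral.integral_add (by apply Continuous.intervalIntegrable; fun_prop)
    (by apply Continuous.intervalIntegrable; fun_prop)]
  refine intervalIntegral.integral_congr fun u _ => ?_
  ring

end Pool.Agent.W170.MV
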