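import Mathlib

set_option autoImplicit false

/-!
# Separation of variables in the phase `u x` when `|u x| ≤ U X`
-/

namespace Pool.Agent.W170.MV

open Finset Filter Topology

/-- the `ℓ²` norm over a finite set -/
noncomputable def l2 {ι : Type*} (S : Finset ι) (f : ι → ℂ) : ℝ := Real.sqrt (∑ t ∈ S, ‖f t‖ ^ 2)

theorem l2_eq {ι : Type*} (S : Finset ι) (f : ι → ℂ) :
    l2 S f = ‖(WithLp.toLp 2 (fun t : S => f t) : EuclideanSpace ℂ S)‖ := by
  rw [EuclideanSpace.norm_eq, l2]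
  congr 1
  exact (Finset.sum_coe_sort S (fun t => ‖f t‖ ^ 2)).symm

theorem l2_sum_le {ι : Type*} (S : Finset ι) (v : ℕ → ι → ℂ) (K : ℕ) :
    l2 S (fun t => ∑ k ∈ range K, v k t) ≤ ∑ k ∈ range K, l2 S (v k) := by
  have h1 : (WithLp.toLp 2 (fun t : S => ∑ k ∈ range K, v k t) : EuclideanSpace ℂ S) =
      ∑ k ∈ range K, (WithLp.toLp 2 (fun t : S => v k t) : EuclideanSpace ℂ S) := by
    ext t
    simp
  rw [l2_eq, h1]
  refine (norm_sum_le _ _).trans (le_of_eq ?_)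
  apply Finset.sum_congr rfl
  intro k _
  rw [l2_eq]

/-- **separation of variables** -/
theorem sep {ι κ : Type*} (S : Finset ι) (s : Finset κ) (K : ι → κ → ℂ) (b : κ → ℂ) (u : ι → ℝ)
    (x : κ → ℝ) (U X M : ℝ) (hU : 0 ≤ U) (hX : 0 < X) (hu : ∀ t ∈ S, |u t| ≤ U)
    (hx : ∀ n ∈ s, |x n| ≤ X)
    (hM : ∀ b' : κ → ℂ, (∀ n ∈ s, ‖b' n‖ ≤ ‖b n‖) → ∑ t ∈ S, ‖∑ n ∈ s, K t n * b' n‖ ^ 2 ≤ M) :
    ∑ t ∈ S, ‖∑ n ∈ s, K t n * (Complex.exp (Complex.I * (u t * x n : ℝ)) * b n)‖ ^ 2 ≤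
      Real.exp (U * X) ^ 2 * M := by
  have hM0 : 0 ≤ M := le_trans (Finset.sum_nonneg fun _ _ => by positivity) (hM b fun _ _ => le_rfl)
  set v : ℕ → ι → ℂ := fun k t =>
    ∑ n ∈ s, K t n * (((Complex.I * (u t * x n : ℝ)) ^ k / (k.factorial : ℂ)) * b n) with hv
  have hvk : ∀ k, l2 S (v k) ≤ (U * X) ^ k / k.factorial * Real.sqrt M := by
    intro k
    have hb' := hM (fun n => ((x n / X : ℝ) : ℂ) ^ k * b n) (by
      intro n hn
      rw [norm_mul, norm_pow, Complex.norm_real, Real.norm_eq_abs, abs_div, abs_of_pos hX]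
      have h1 : |x n| / X ≤ 1 := (div_le_one hX).2 (hx n hn)
      have h2 : (|x n| / X) ^ k ≤ 1 := pow_le_one₀ (by positivity) h1
      calc (|x n| / X) ^ k * ‖b n‖ ≤ 1 * ‖b n‖ := mul_le_mul_of_nonneg_right h2 (norm_nonneg _)
        _ = ‖b n‖ := one_mul _)
    have hterm : ∀ t ∈ S, ‖v k t‖ ^ 2 ≤ ((U * X) ^ k / k.factorial) ^ 2 *
        ‖∑ n ∈ s, K t n * (((x n / X : ℝ) : ℂ) ^ k * b n)‖ ^ 2 := by
      intro t ht
      have e : v k t = ((Complex.I * (u t : ℝ)) ^ k * ((X : ℝ) : ℂ) ^ k / (k.factorial : ℂ)) *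
          ∑ n ∈ s, K t n * (((x n / X : ℝ) : ℂ) ^ k * b n) := by
        rw [hv, Finset.mul_sum]
        apply Finset.sum_congr rfl
        intro n _
        have hXc : ((X : ℝ) : ℂ) ≠ 0 := by exact_mod_cast hX.ne'
        have : ((u t * x n : ℝ) : ℂ) = (u t : ℂ) * (X : ℂ) * ((x n / X : ℝ) : ℂ) := by
          push_cast
          field_simp
        rw [this]
        ring
      rw [e, norm_mul, mul_pow]
      apply mul_le_mul_of_nonneg_right _ (by positivity)
      apply pow_le_pow_left₀ (norm_nonneg _)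
      rw [norm_div, norm_mul, norm_pow, norm_pow, norm_mul, Complex.norm_I, one_mul,
        Complex.norm_real, Complex.norm_real, Complex.norm_natCast, Real.norm_eq_abs,
        Real.norm_eq_abs, abs_of_pos hX, mul_pow]
      apply div_le_div_of_nonneg_right _ (by positivity)
      apply mul_le_mul_of_nonneg_right _ (by positivity)
      exact pow_le_pow_left₀ (abs_nonneg _) (hu t ht) k
    have hsum : ∑ t ∈ S, ‖v k t‖ ^ 2 ≤ ((U * X) ^ k / k.factorial) ^ 2 * M := by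
      refine (Finset.sum_le_sum hterm).trans ?_
      rw [← Finset.mul_sum]
      exact mul_le_mul_of_nonneg_left hb' (by positivity)
    have h0 : 0 ≤ (U * X) ^ k / k.factorial := by positivity
    calc l2 S (v k) ≤ Real.sqrt (((U * X) ^ k / k.factorial) ^ 2 * M) := Real.sqrt_le_sqrt hsum
      _ = _ := by rw [Real.sqrt_mul (by positivity), Real.sqrt_sq h0]
  have hpart : ∀ K' : ℕ, ∑ t ∈ S, ‖∑ k ∈ range K', v k t‖ ^ 2 ≤ Real.exp (U * X) ^ 2 * M := by
    intro K'
    have h1 : l2 S (fun t => ∑ k ∈ range K', v k t) ≤ Real.exp (U * X) * Real.sqrt M := by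
      refine (l2_sum_le S v K').trans ?_
      refine (Finset.sum_le_sum fun k _ => hvk k).trans ?_
      rw [← Finset.sum_mul]
      apply mul_le_mul_of_nonneg_right _ (Real.sqrt_nonneg _)
      exact Real.sum_le_exp_of_nonneg (by positivity) K'
    have h2 : (l2 S (fun t => ∑ k ∈ range K', v k t)) ^ 2 ≤ (Real.exp (U * X) * Real.sqrt M) ^ 2 :=
      pow_le_pow_left₀ (Real.sqrt_nonneg _) h1 2
    rw [mul_pow, Real.sq_sqrt hM0, l2, Real.sq_sqrt (Finset.sum_nonneg fun _ _ => by positivity)] at h2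
    exact h2
  have hlim : Tendsto (fun K' : ℕ => ∑ t ∈ S, ‖∑ k ∈ range K', v k t‖ ^ 2) atTop
      (𝓝 (∑ t ∈ S, ‖∑ n ∈ s, K t n * (Complex.exp (Complex.I * (u t * x n : ℝ)) * b n)‖ ^ 2)) := by
    apply tendsto_finsetSum
    intro t _
    apply Tendsto.pow
    apply Tendsto.norm
    have e : ∀ K' : ℕ, ∑ k ∈ range K', v k t = ∑ n ∈ s, K t n *
        ((∑ k ∈ range K', (Complex.I * (u t * x n : ℝ)) ^ k / (k.factorial : ℂ)) * b n) := by
      intro K'
      rw [hv]
      dsimp only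
      rw [Finset.sum_comm]
      apply Finset.sum_congr rfl
      intro n _
      rw [Finset.sum_mul, Finset.mul_sum]
    simp only [e]
    apply tendsto_finsetSum
    intro n _
    apply Tendsto.const_mul
    apply Tendsto.mul_const
    have := (NormedSpace.expSeries_div_hasSum_exp (𝔸 := ℂ)
      (Complex.I * (u t * x n : ℝ))).tendsto_sum_nat
    rw [← Complex.exp_eq_exp_ℂ] at this
    exact this
  exact le_of_tendsto hlim (Eventually.of_forall hpart)

end Pool.Agent.W170.MV
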