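import Pool.Agent.W170.MV.Pars
import Pool.Agent.W170.MV.Sep

set_option autoImplicit false

/-!
# Large sieve with multiplicity
-/

namespace Pool.Agent.W170.MV

open MeasureTheory Finset

theorem norm_da {q : ℝ} (hq : 0 < q) (b : ℕ → ℂ) (j : ℕ) : ‖da q b j‖ = (j : ℝ) / q * ‖b j‖ := by
  unfold da
  rw [norm_mul, norm_mul, norm_neg, norm_div, Complex.norm_I, mul_one, Complex.norm_natCast,
    Complex.norm_real, Real.norm_eq_abs, abs_of_pos hq, mul_comm]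

/-- points in the cells `[c, c+1]`, `c < L ≤ 2 π q`, at most `m` in each -/
theorem pieces {ι : Type*} {q : ℝ} (hq : 0 < q) (s : Finset ℕ) (b : ℕ → ℂ) (L : ℕ)
    (hL : (L : ℝ) ≤ 2 * Real.pi * q) (I : Finset ι) (v : ι → ℝ) (c : ι → ℕ)
    (hc : ∀ i ∈ I, c i < L ∧ (c i : ℝ) ≤ v i ∧ v i ≤ c i + 1) (m : ℕ)
    (hm : ∀ a ∈ range L, (I.filter (fun i => c i = a)).card ≤ m) (W : ℝ)
    (hW : ∀ j ∈ s, (j : ℝ) / q ≤ W) :
    ∑ i ∈ I, ‖FF q s b (v i)‖ ^ 2 ≤
      m * (2 * Real.pi * q * ((2 + W ^ 2) * ∑ j ∈ s, ‖b j‖ ^ 2)) := by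
  have hFc := FF_cont q s b
  have hFc' := FF_cont q s (da q b)
  set G : ℝ → ℝ := fun u => 2 * ‖FF q s b u‖ ^ 2 + ‖FF q s (da q b) u‖ ^ 2 with hGdef
  have hG : Continuous G := by rw [hGdef]; fun_prop
  have hG0 : ∀ u, 0 ≤ G u := fun u => by rw [hGdef]; positivity
  have h1 : ∀ i ∈ I, ‖FF q s b (v i)‖ ^ 2 ≤ ∫ u in ((c i : ℕ) : ℝ)..((c i : ℕ) : ℝ) + 1, G u := by
    intro i hi
    exact gall (FF_deriv q s b) hFc hFc' (c i) (v i) (hc i hi).2.1 (hc i hi).2.2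
  have h2 : ∑ i ∈ I, ‖FF q s b (v i)‖ ^ 2 ≤
      ∑ a ∈ range L, (m : ℝ) * ∫ u in (a : ℝ)..((a : ℝ) + 1), G u := by
    refine (Finset.sum_le_sum h1).trans ?_
    rw [← Finset.sum_fiberwise_of_maps_to (t := range L) (g := c)
      (fun i hi => mem_range.2 (hc i hi).1)]
    apply Finset.sum_le_sum
    intro a ha
    have h3 : ∑ i ∈ I.filter (fun i => c i = a), ∫ u in ((c i : ℕ) : ℝ)..((c i : ℕ) : ℝ) + 1, G u =
        ((I.filter (fun i => c i = a)).card : ℝ) * ∫ u in (a : ℝ)..((a : ℝ) + 1), G u := by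
      rw [← nsmul_eq_mul, ← Finset.sum_const]
      apply Finset.sum_congr rfl
      intro i hi
      rw [(mem_filter.1 hi).2]
    rw [h3]
    apply mul_le_mul_of_nonneg_right
    · exact_mod_cast hm a ha
    · exact intervalIntegral.integral_nonneg (by linarith) (fun u _ => hG0 u)
  have h4 : ∑ a ∈ range L, ∫ u in (a : ℝ)..((a : ℝ) + 1), G u = ∫ u in (0 : ℝ)..(L : ℝ), G u := by
    have := intervalIntegral.sum_integral_adjacent_intervals (f := G) (μ := volume)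
      (a := fun k : ℕ => (k : ℝ)) (n := L) (fun k _ => hG.intervalIntegrable _ _)
    simp only [Nat.cast_add, Nat.cast_one, Nat.cast_zero] at this
    exact this
  have h5 : ∫ u in (0 : ℝ)..(L : ℝ), G u ≤ ∫ u in (0 : ℝ)..(2 * Real.pi * q), G u :=
    intervalIntegral.integral_mono_interval le_rfl (Nat.cast_nonneg _) hL
      (Filter.Eventually.of_forall fun u => hG0 u) (hG.intervalIntegrable _ _)
  have h6 : ∫ u in (0 : ℝ)..(2 * Real.pi * q), G u ≤
      2 * Real.pi * q * ((2 + W ^ 2) * ∑ j ∈ s, ‖b j‖ ^ 2) := by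
    have e1 : ∫ u in (0 : ℝ)..(2 * Real.pi * q), G u =
        2 * (2 * Real.pi * q * ∑ j ∈ s, ‖b j‖ ^ 2) +
          2 * Real.pi * q * ∑ j ∈ s, ‖da q b j‖ ^ 2 := by
      rw [hGdef, intervalIntegral.integral_add
        (by apply Continuous.intervalIntegrable; fun_prop)
        (by apply Continuous.intervalIntegrable; fun_prop),
        intervalIntegral.integral_const_mul, parseval hq, parseval hq]
    have e2 : ∑ j ∈ s, ‖da q b j‖ ^ 2 ≤ W ^ 2 * ∑ j ∈ s, ‖b j‖ ^ 2 := by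
      rw [Finset.mul_sum]
      apply Finset.sum_le_sum
      intro j hj
      rw [norm_da hq, mul_pow]
      apply mul_le_mul_of_nonneg_right _ (by positivity)
      exact pow_le_pow_left₀ (by positivity) (hW j hj) 2
    rw [e1]
    have e3 : 0 ≤ 2 * Real.pi * q := by positivity
    nlinarith [mul_le_mul_of_nonneg_left e2 e3]
  rw [← Finset.mul_sum, h4] at h2
  refine h2.trans ?_
  exact mul_le_mul_of_nonneg_left (h5.trans h6) (Nat.cast_nonneg _)

/-- **large sieve with multiplicity on the circle** -/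
theorem ls_cells {ι : Type*} (Q : ℕ) (hQ : 0 < Q) (b : ℕ → ℂ) (I : Finset ι) (v : ι → ℝ) (m : ℕ)
    (hm : ∀ a ∈ range Q, (I.filter (fun i => ⌊v i⌋ % (Q : ℤ) = (a : ℤ))).card ≤ m) :
    ∑ i ∈ I, ‖FF (Q / (2 * Real.pi)) (range (Q + 1)) b (v i)‖ ^ 2 ≤
      m * (Q * ((2 + (2 * Real.pi) ^ 2) * ∑ j ∈ range (Q + 1), ‖b j‖ ^ 2)) := by
  have hpi := Real.pi_pos
  have hQr : (0 : ℝ) < Q := by exact_mod_cast hQ
  have hQz : (0 : ℤ) < (Q : ℤ) := by exact_mod_cast hQ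
  have hq : (0 : ℝ) < Q / (2 * Real.pi) := by positivity
  have h2q : 2 * Real.pi * (Q / (2 * Real.pi)) = Q := by field_simp
  set v' : ι → ℝ := fun i => v i - (⌊v i⌋ / (Q : ℤ) : ℤ) * (Q : ℝ) with hv'
  set c : ι → ℕ := fun i => (⌊v i⌋ % (Q : ℤ)).toNat with hc
  have hcz : ∀ i, ((c i : ℕ) : ℤ) = ⌊v i⌋ % (Q : ℤ) := fun i =>
    Int.toNat_of_nonneg (Int.emod_nonneg _ hQz.ne')
  have hper : ∀ i, FF (Q / (2 * Real.pi)) (range (Q + 1)) b (v i) =
      FF (Q / (2 * Real.pi)) (range (Q + 1)) b (v' i) := by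
    intro i
    have hP := FF_per hq (range (Q + 1)) b
    rw [h2q] at hP
    exact (hP.sub_int_mul_eq (⌊v i⌋ / (Q : ℤ))).symm
  have hcr : ∀ i, ((c i : ℕ) : ℝ) = (⌊v i⌋ : ℝ) - (⌊v i⌋ / (Q : ℤ) : ℤ) * (Q : ℝ) := by
    intro i
    have h1 : ((c i : ℕ) : ℤ) = ⌊v i⌋ - (⌊v i⌋ / (Q : ℤ)) * (Q : ℤ) := by
      rw [hcz]
      have := Int.emod_add_mul_ediv ⌊v i⌋ (Q : ℤ)
      linarith [mul_comm (Q : ℤ) (⌊v i⌋ / (Q : ℤ))]
    have h2 : (((c i : ℕ) : ℤ) : ℝ) = ((⌊v i⌋ - (⌊v i⌋ / (Q : ℤ)) * (Q : ℤ) : ℤ) : ℝ) := by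
      rw [h1]
    push_cast at h2
    exact h2
  simp only [hper]
  have hmain := pieces hq (range (Q + 1)) b Q (by rw [h2q]) I v' c (by
    intro i _
    refine ⟨?_, ?_, ?_⟩
    · have : ((c i : ℕ) : ℤ) < Q := by
        rw [hcz]
        exact Int.emod_lt_of_pos _ hQz
      exact_mod_cast this
    · rw [hcr]
      have := Int.floor_le (v i)
      simp only [hv']
      linarith
    · rw [hcr]
      have := (Int.lt_floor_add_one (v i)).le
      simp only [hv']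
      linarith) m (by
    intro a ha
    refine le_trans (le_of_eq ?_) (hm a ha)
    congr 1
    apply Finset.filter_congr
    intro i _
    rw [← hcz]
    constructor
    · intro h; exact_mod_cast h
    · intro h; exact_mod_cast h) (2 * Real.pi) (by
    intro j hj
    rw [div_div_eq_mul_div, div_le_iff₀ hQr]
    have : (j : ℝ) ≤ Q := by
      have := mem_range.1 hj
      exact_mod_cast (by omega : j ≤ Q)
    nlinarith)
  rw [h2q] at hmain
  exact hmain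

end Pool.Agent.W170.MV
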